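import Pool.Agent.Run7.h90.AU.LeastC

set_option autoImplicit false

/-!
# The size of the least almost prime in almost all classes of a thin family

Let `m` be a large prime and let `(v_i)`, `i ∈ s`, be a family of residues modulo `m` whose exponential sums
`∑ e(ξ v_i / m)`, `ξ ≠ 0`, are at most `m ^ (-ε) |s|`; the family may be very thin. Examples: the values of a sparse
polynomial of arbitrary degree on a subgroup of order `m ^ η`, the values `c_1 g_1 ^ n + ... + c_k g_k ^ n`, `n < N`,
`N ≥ m ^ η`. Let `η > 0`. Then for
all but at most `η |s|` of the classes `v_i` modulo `m` the least product of at most `r` primes (all of them at least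
`m ^ κ`) is at most `m log m`, and for all but at most `η |s|` of the classes the least prime `p(m, v_i)` exceeds
`c m log m`: the typical size in thin families is `φ(m) log m`, a factor `log m` below the maximum asked for. More
generally both hold in the intervals `(M, M + m log m]`, `(M, M + c m log m]` for every `M ≤ m ^ A`.

Proof: equidistribution of the family in all residue classes modulo integers up to `m ^ δ` (bound of Bourgain,
Glibichuk and Konyagin, `Agent/Run7/h823/BK9`) and the fundamental lemma of the sieve (`Agent/Run7/h90/AU`) give the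
first moment of the number of the integers without prime factors `≤ m ^ (δ / b)` in the classes, and, uniformly in
`k < log m`, the number of the pairs `n, n + k m` of such integers; an upper bound for the mean value of the singular
series `𝔖(k m)` with the sharp constant (`LeastA`) then shows that the variance is small compared with the square of the
mean when `b` is large.
-/

namespace Pool.Agent.Results.MP_458f0b_nt.AlmostAllSparseClasses

open Finset
open Pool.Agent.Run7.h90.AU (SmallSums Almost SparseSmall RecurrencesSmall)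

open scoped Classical in
/-- The classes `v_i` without an integer `n`, `M < n ≤ M + m log m`, that is a product of at most `r` primes, all at
least `m ^ κ`. -/
noncomputable def withoutAlmostPrime (r : ℕ) (κ : ℝ) (m : ℕ) {ι : Type} (s : Finset ι) (v : ι → ZMod m) (M : ℕ) : Finset ι :=
  s.filter fun i => ¬ ∃ n : ℕ, M < n ∧ (n : ℝ) ≤ M + m * Real.log m ∧ (n : ZMod m) = v i ∧
    Almost r ((m : ℝ) ^ κ) n

open scoped Classical in
/-- The classes `v_i` with a prime `q`, `M < q ≤ M + c m log m`. -/
noncomputable def withPrime (c : ℝ) (m : ℕ) {ι : Type} (s : Finset ι) (v : ι → ZMod m) (M : ℕ) : Finset ι :=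
  s.filter fun i => ∃ q : ℕ, q.Prime ∧ M < q ∧ (q : ℝ) ≤ M + c * m * Real.log m ∧ (q : ZMod m) = v i

theorem result :
    (∀ ε η A : ℝ, 0 < ε → 0 < η → 1 ≤ A → ∃ (r : ℕ) (κ c : ℝ), 0 < κ ∧ 0 < c ∧ ∃ m₀ : ℝ,
      ∀ (m : ℕ) [Fact m.Prime], m₀ ≤ m →
      ∀ (ι : Type) (s : Finset ι) (v : ι → ZMod m), SmallSums m ε s v →
      ∀ M : ℕ, (M : ℝ) ≤ (m : ℝ) ^ A →
      ((withoutAlmostPrime r κ m s v M).card : ℝ) ≤ η * s.card ∧ ((withPrime c m s v M).card : ℝ) ≤ η * s.card) ∧
    SparseSmall ∧ RecurrencesSmall := by
  refine ⟨?_, Pool.Agent.Run7.h90.AU.sparse_small, Pool.Agent.Run7.h90.AU.rec_small⟩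
  intro ε η A hε hη hA
  obtain ⟨r, κ, hκ, P₁, H₁⟩ := Pool.Agent.Run7.h90.AU.least_core ε η A hε hη hA
  obtain ⟨c, hc, P₂, H₂⟩ := Pool.Agent.Run7.h90.AU.prime_core ε η A hε hη hA
  refine ⟨r, κ, c, hκ, hc, max P₁ P₂, ?_⟩
  intro m _ hm ι s v hv M hM
  exact ⟨H₁ m ((le_max_left _ _).trans hm) ι s v hv M hM, H₂ m ((le_max_right _ _).trans hm) ι s v hv M hM⟩

end Pool.Agent.Results.MP_458f0b_nt.AlmostAllSparseClasses
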